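import Mathlib
import Pool.Agent.Lib.MP_0eac64_mp.Main
import Pool.Agent.Lib.MP_b5b0d6_mp.SpecMeas

/-!
# MP_0eac64_mp: dense almost sure pure point spectrum for limit-periodic Schrödinger operators
-/

set_option autoImplicit false

open MeasureTheory

namespace Pool.Agent.Results.MP_0eac64_mp.DensePurePoint

/-- A Cantor group: an infinite, compact, metrizable, totally disconnected abelian topological group
with no isolated points. -/
structure IsCantorGroup (Ω : Type) [AddCommGroup Ω] [TopologicalSpace Ω] : Prop where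
  topologicalAddGroup : IsTopologicalAddGroup Ω
  infinite : Infinite Ω
  compact : CompactSpace Ω
  metrizable : TopologicalSpace.MetrizableSpace Ω
  totallyDisconnected : TotallyDisconnectedSpace Ω
  noIsolatedPoints : ∀ ω : Ω, ¬ IsOpen ({ω} : Set Ω)

/-- The translation `T ω = ω + α`. -/
def translation {Ω : Type} [AddCommGroup Ω] (α : Ω) : Equiv.Perm Ω := Equiv.addRight α

/-- `T` is minimal: every orbit `{T^n ω | n ∈ ℤ}` is dense. -/
def IsMinimal {Ω : Type} [TopologicalSpace Ω] (T : Equiv.Perm Ω) : Prop :=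
  ∀ ω : Ω, Dense (Set.range fun n : ℤ => (T ^ n) ω)

/-- The Hilbert space `ℓ²(ℤ)` of complex sequences. -/
def L2 : Type := lp (fun _ : ℤ => ℂ) 2

noncomputable instance : NormedAddCommGroup L2 :=
  (lp.normedAddCommGroup : NormedAddCommGroup (lp (fun _ : ℤ => ℂ) 2))

noncomputable instance : InnerProductSpace ℂ L2 :=
  (lp.instInnerProductSpace : InnerProductSpace ℂ (lp (fun _ : ℤ => ℂ) 2))

instance : CompleteSpace L2 := inferInstanceAs (CompleteSpace (lp (fun _ : ℤ => ℂ) 2))

/-- The sequence `n ↦ ψ(n)`. -/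
def L2.seq (ψ : L2) : ℤ → ℂ := ψ.1

/-- `H` is the Schrödinger operator with the potential `V`:
`(H ψ)(n) = ψ(n + 1) + ψ(n - 1) + V(n) ψ(n)`. -/
def IsSchrodinger (V : ℤ → ℝ) (H : L2 →L[ℂ] L2) : Prop :=
  ∀ (ψ : L2) (n : ℤ), (H ψ).seq n = ψ.seq (n + 1) + ψ.seq (n - 1) + (V n : ℂ) * ψ.seq n

/-- `H` has pure point spectrum: `ℓ²(ℤ)` has an orthonormal basis consisting of eigenvectors. -/
def HasPurePoint (H : L2 →L[ℂ] L2) : Prop :=
  ∃ (ι : Type) (b : HilbertBasis ι ℂ L2), ∀ i, ∃ E : ℂ, H (b i) = E • b i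

/-- A set `D` of continuous functions is dense for the uniform norm. -/
def UniformlyDense {Ω : Type} [TopologicalSpace Ω] (D : Set C(Ω, ℝ)) : Prop :=
  ∀ (f₀ : C(Ω, ℝ)) (ε : ℝ), 0 < ε → ∃ f ∈ D, ∀ ω, |f ω - f₀ ω| < ε

/-- There is a dense set `D ⊆ C(Ω, ℝ)` such that for each `f ∈ D`, for `μ`-almost every `ω`, the bounded
self-adjoint operator `H_ω` with the potential `n ↦ f (T^n ω)` has pure point spectrum. -/
def DensePurePointSpectrum {Ω : Type} [TopologicalSpace Ω] [MeasurableSpace Ω] (μ : Measure Ω)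
    (T : Equiv.Perm Ω) : Prop :=
  ∃ D : Set C(Ω, ℝ), UniformlyDense D ∧ ∀ f ∈ D, ∀ᵐ ω ∂μ, ∃ H : L2 →L[ℂ] L2,
    IsSchrodinger (fun n => f ((T ^ n) ω)) H ∧ IsSelfAdjoint H ∧ HasPurePoint H

/-- If the eigenvectors span a dense subspace, there is an orthonormal basis of eigenvectors. -/
theorem exists_basis {W : Type} [NormedAddCommGroup W] [InnerProductSpace ℂ W] [CompleteSpace W]
    (H : W →L[ℂ] W) (hH : IsSelfAdjoint H)
    (h : (Submodule.span ℂ {ψ : W | ∃ E : ℝ, H ψ = (E : ℂ) • ψ}).topologicalClosure = ⊤) :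
    ∃ (ι : Type) (b : HilbertBasis ι ℂ W), ∀ i, ∃ E : ℂ, H (b i) = E • b i := by
  classical
  have hsym : (H : W →ₗ[ℂ] W).IsSymmetric :=
    ContinuousLinearMap.isSelfAdjoint_iff_isSymmetric.1 hH
  have horth := hsym.orthogonalFamily_eigenspaces
  have hclosed : ∀ E : ℂ, IsClosed
      (Module.End.eigenspace (H : W →ₗ[ℂ] W) E : Set W) := by
    intro E
    have h1 : (Module.End.eigenspace (H : W →ₗ[ℂ] W) E : Set W) = {x | H x = E • x} := by
      ext x
      exact Module.End.mem_eigenspace_iff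
    rw [h1]
    exact isClosed_eq H.continuous (continuous_const_smul E)
  have hcomp : ∀ E : ℂ, CompleteSpace (Module.End.eigenspace (H : W →ₗ[ℂ] W) E) :=
    fun E => (hclosed E).completeSpace_coe
  have hbas : ∀ E : ℂ, ∃ (w : Set (Module.End.eigenspace (H : W →ₗ[ℂ] W) E))
      (b : HilbertBasis w ℂ (Module.End.eigenspace (H : W →ₗ[ℂ] W) E)), ⇑b = ((↑) : w → _) := by
    intro E
    have := hcomp E
    exact exists_hilbertBasis ℂ _
  choose w b hb using hbas
  have hon := horth.orthonormal_sigma_orthonormal (fun E => (b E).orthonormal)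
  refine ⟨Σ E : ℂ, w E, HilbertBasis.mk hon ?_, ?_⟩
  · rw [← h]
    refine Submodule.topologicalClosure_minimal _ ?_ (Submodule.isClosed_topologicalClosure _)
    rw [Submodule.span_le]
    rintro ψ ⟨E, hE⟩
    have hmem : ψ ∈ Module.End.eigenspace (H : W →ₗ[ℂ] W) (E : ℂ) :=
      Module.End.mem_eigenspace_iff.2 hE
    have h2 : (⟨ψ, hmem⟩ : Module.End.eigenspace (H : W →ₗ[ℂ] W) (E : ℂ)) ∈
        (Submodule.span ℂ (Set.range (b E))).topologicalClosure := by
      rw [(b E).dense_span]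
      exact Submodule.mem_top
    have h3 : (Submodule.span ℂ (Set.range (b E))).topologicalClosure.map
        (Module.End.eigenspace (H : W →ₗ[ℂ] W) (E : ℂ)).subtype ≤
        (Submodule.span ℂ (Set.range fun a : Σ E : ℂ, w E =>
          ((Module.End.eigenspace (H : W →ₗ[ℂ] W) a.1).subtypeₗᵢ (b a.1 a.2)))).topologicalClosure := by
      refine (Submodule.topologicalClosure_map
        (Module.End.eigenspace (H : W →ₗ[ℂ] W) (E : ℂ)).subtypeL _).trans ?_
      refine Submodule.topologicalClosure_mono ?_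
      rw [Submodule.map_span, Submodule.span_le]
      rintro _ ⟨_, ⟨i, rfl⟩, rfl⟩
      exact Submodule.subset_span ⟨⟨(E : ℂ), i⟩, rfl⟩
    exact h3 ⟨_, h2, rfl⟩
  · rintro ⟨E, i⟩
    refine ⟨E, ?_⟩
    rw [HilbertBasis.coe_mk]
    exact Module.End.mem_eigenspace_iff.1 (b E i).2

theorem translation_zpow {Ω : Type} [AddCommGroup Ω] (α : Ω) (n : ℤ) (ω : Ω) :
    (translation α ^ n) ω = ω + n • α := by
  have h1 : ∀ (m : ℕ) (ω : Ω), (translation α ^ m) ω = ω + m • α := by
    intro m
    induction m with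
    | zero => intro ω; simp
    | succ m ih =>
      intro ω
      rw [pow_succ, Equiv.Perm.mul_apply, ih, succ_nsmul']
      show ω + α + m • α = _
      rw [add_assoc]
  obtain ⟨m, rfl | rfl⟩ := n.eq_nat_or_neg
  · rw [zpow_natCast, h1, natCast_zsmul]
  · rw [zpow_neg, zpow_natCast, Equiv.Perm.inv_eq_iff_eq, h1, neg_smul, natCast_zsmul,
      neg_add_cancel_right]

/-- The conclusion for one `ω`. -/
theorem exists_op (V : ℤ → ℝ) (C : ℝ) (hV : ∀ n, |V n| ≤ C)
    (h : (Submodule.span ℂ {ψ : lp (fun _ : ℤ => ℂ) 2 | ∃ E : ℝ, ∀ n : ℤ,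
        ψ (n + 1) + ψ (n - 1) + (V n : ℂ) * ψ n = (E : ℂ) * ψ n}).topologicalClosure = ⊤) :
    ∃ H : L2 →L[ℂ] L2, IsSchrodinger V H ∧ IsSelfAdjoint H ∧ HasPurePoint H := by
  have hsa := Pool.Agent.LimPer.opCLM_selfAdjoint V C hV
  refine ⟨Pool.Agent.LimPer.opCLM V C hV, fun ψ n => rfl, hsa,
    exists_basis (W := lp (fun _ : ℤ => ℂ) 2) _ hsa ?_⟩
  rw [← h]
  congr 2
  ext ψ
  refine exists_congr fun E => ?_
  constructor
  · intro h n
    have h2 := congrArg (fun φ : lp (fun _ : ℤ => ℂ) 2 => φ n) h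
    simp only [lp.coeFn_smul, Pi.smul_apply, smul_eq_mul] at h2
    rw [← h2, Pool.Agent.LimPer.opCLM_apply]
  · intro h
    ext n
    simp only [lp.coeFn_smul, Pi.smul_apply, smul_eq_mul]
    rw [← h n, Pool.Agent.LimPer.opCLM_apply]

/-- **Full answer to Q1**: yes. For every Cantor group `Ω`, every minimal translation `T` of `Ω` and
the normalised Haar measure `μ`, there is a dense set `D ⊆ C(Ω, ℝ)` such that for each `f ∈ D`, for
`μ`-almost every `ω`, the operator `H_ω` has pure point spectrum. Second part: the same with any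
finite Borel measure instead of Haar measure. -/
theorem result (Ω : Type) [AddCommGroup Ω] [TopologicalSpace Ω] [MeasurableSpace Ω] [BorelSpace Ω]
    (hΩ : IsCantorGroup Ω) (α : Ω) (hT : IsMinimal (translation α)) :
    (∀ μ : Measure Ω, μ.IsAddHaarMeasure → IsProbabilityMeasure μ →
      DensePurePointSpectrum μ (translation α)) ∧
    ∀ μ : Measure Ω, IsFiniteMeasure μ → DensePurePointSpectrum μ (translation α) := by
  have key : ∀ μ : Measure Ω, IsFiniteMeasure μ → DensePurePointSpectrum μ (translation α) := by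
    intro μ _
    have := hΩ.topologicalAddGroup
    have := hΩ.infinite
    have := hΩ.compact
    have := hΩ.metrizable
    have := hΩ.totallyDisconnected
    have hα : Dense (Set.range fun n : ℤ => n • α) := by
      have h := hT 0
      simp only [translation_zpow, zero_add] at h
      exact h
    refine ⟨{f : C(Ω, ℝ) | ∀ᵐ ω ∂μ, (Submodule.span ℂ {ψ : lp (fun _ : ℤ => ℂ) 2 | ∃ E : ℝ,
        ∀ n : ℤ, ψ (n + 1) + ψ (n - 1) + (f (ω + n • α) : ℂ) * ψ n =
          (E : ℂ) * ψ n}).topologicalClosure = ⊤}, ?_, ?_⟩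
    · intro f₀ ε hε
      obtain ⟨f, hf, hae⟩ := Pool.Agent.DensePP.main_ex Ω μ α hα f₀ ε hε
      refine ⟨f, hae, fun ω => ?_⟩
      have h1 := ContinuousMap.dist_apply_le_dist (f := f) (g := f₀) ω
      rw [Real.dist_eq] at h1
      exact h1.trans_lt hf
    · intro f hf
      filter_upwards [hf] with ω hω
      refine exists_op _ ‖f‖ (fun n => f.norm_coe_le_norm _) ?_
      simp only [translation_zpow]
      exact hω
  exact ⟨fun μ _ _ => key μ inferInstance, key⟩

end Pool.Agent.Results.MP_0eac64_mp.DensePurePoint
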